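import Mathlib
import Pool.Agent.H29.NoBasic

set_option autoImplicit false

namespace Pool.Agent.Results.MP_af568f_an.NoBasic

open Filter Topology

def IsBasic (k : Type) [RCLike k] {U : Type} [AddCommGroup U] [Module k U] [TopologicalSpace U]
    (x : ℕ → U) : Prop :=
  ∀ v ∈ closure (Submodule.span k (Set.range x) : Set U),
    ∃! a : ℕ → k, Tendsto (fun N => ∑ n ∈ Finset.range N, a n • x n) atTop (𝓝 v)

theorem result : ∀ (k : Type) [RCLike k],
    ∃ (U : Type) (_ : AddCommGroup U) (_ : Module k U) (_ : TopologicalSpace U),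
      IsTopologicalAddGroup U ∧ ContinuousSMul k U ∧ T2Space U ∧
      (∃ (ι : Type) (p : SeminormFamily k U ι), WithSeminorms p) ∧
      ¬ FiniteDimensional k U ∧ ∀ x : ℕ → U, ¬ IsBasic k x := by
  intro k _
  obtain ⟨Y, h1, h2⟩ := Pool.Agent.H29.NoBasic.main k
  exact ⟨WeakBilin (Pool.Agent.H29.NoBasic.bil Y), inferInstance, inferInstance, inferInstance,
    inferInstance, inferInstance, (WeakBilin.isEmbedding h1).t2Space,
    ⟨Y, _, LinearMap.weakBilin_withSeminorms _⟩, Pool.Agent.H29.NoBasic.not_fin k, h2⟩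

end Pool.Agent.Results.MP_af568f_an.NoBasic
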